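import Pool.Agent.P.MP_8d62fb_al.Perm

/-! The Addition Theorem holds for every endomorphism `φ` of every group `G` and every normal
`φ`-invariant subgroup `H` such that, modulo a normal subgroup `N` inside the FC-hypercentre of
`G`, all subgroups of `H` are permutable. Neither `N` nor its series need be `φ`-invariant. -/

namespace Pool.Agent.Results.MP_8d62fb_al.FCHypercentre

open Pool.Agent.P.MP_8d62fb_al

theorem result {G : Type*} [Group G] (φ : G →* G) (N H : Subgroup G) [N.Normal] [H.Normal]
    (h : H ≤ H.comap φ) (hN : FCHypercentral N)
    (hp : AllPermutable (H.map (QuotientGroup.mk' N))) :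
    halg φ = halg (QuotientGroup.map H H φ h) + halg (restr φ H h) :=
  addition_of_fcHypercentral φ N H h hN hp

end Pool.Agent.Results.MP_8d62fb_al.FCHypercentre
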