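import Pool.Agent.P.MP_8d62fb_al.H7.Upper

set_option autoImplicit false

namespace Pool.Agent.Results.MP_8d62fb_al.MetabelianFail

open Pool.Agent.AlgEnt

/-- Both inequalities of the Addition Theorem fail for automorphisms of one locally finite
metabelian group of exponent six. -/
theorem result :
    ∃ (G : Type) (_ : Group G) (H : Subgroup G) (_ : H.Normal) (φ ψ : G →* G)
        (hφ : H ≤ H.comap φ) (hψ : H ≤ H.comap ψ),
      (∀ g : G, g ^ 6 = 1) ∧ (∀ S : Set G, S.Finite → (Subgroup.closure S : Set G).Finite) ∧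
      (∀ x ∈ H, ∀ y ∈ H, x * y = y * x) ∧ (∀ x y : G ⧸ H, x * y = y * x) ∧
      Function.Bijective φ ∧ H.map φ = H ∧ Function.Bijective ψ ∧ H.map ψ = H ∧
      ent (quo φ H hφ) + ent (res φ H hφ) < ent φ ∧ ent φ < ⊤ ∧
      ent ψ < ent (quo ψ H hψ) + ent (res ψ H hψ) := by
  have hl : ∀ a b : ℝ, 1 ≤ a → 1 ≤ b → ENNReal.ofReal (Real.log a) + ENNReal.ofReal (Real.log b) =
      ENNReal.ofReal (Real.log (a * b)) := fun a b ha hb => by
    rw [Real.log_mul (by positivity) (by positivity),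
      ENNReal.ofReal_add (Real.log_nonneg ha) (Real.log_nonneg hb)]
  have hlt : ∀ a b : ℝ, 1 ≤ a → a < b →
      ENNReal.ofReal (Real.log a) < ENNReal.ofReal (Real.log b) := fun a b ha hb =>
    (ENNReal.ofReal_lt_ofReal_iff (Real.log_pos (by linarith))).2
      (Real.log_lt_log (by positivity) hb)
  have p1 : ∀ k, k < pf k := fun k => Nat.lt_succ_self k
  have p2 : Function.Injective pf := fun a b h => Nat.succ_injective h
  have p3 : ∀ k, 0 ≤ k → 0 + 1 ≤ pf k := fun k _ => Nat.succ_le_succ (Nat.zero_le k)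
  refine ⟨Gp pf, inferInstance, HH _, inferInstance, sh _ 1, tw _, sh_le, tw_le, pow_six,
    loc_fin, HH_comm, quo_comm', sh_bij 1, map_HH _ (sh_bij 1) (sh_k 1), tw_bij,
    map_HH _ tw_bij tw_k, ?_, ent_sh_le.trans_lt ENNReal.ofReal_lt_top, ?_⟩
  · refine (add_le_add ent_quo_le ent_res_le).trans_lt (lt_of_lt_of_le ?_ (le_ent_sh p1 p2 0 1 p3))
    rw [hl 2 3 (by norm_num) (by norm_num)]
    exact hlt _ _ (by norm_num) (by norm_num)
  · refine ent_tw_le.trans_lt (lt_of_lt_of_le ?_ (add_le_add le_ent_quo (le_ent_res p1 p2 0 1 p3)))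
    rw [hl 2 _ (by norm_num) (by norm_num)]
    exact hlt _ _ (by norm_num) (by norm_num)

end Pool.Agent.Results.MP_8d62fb_al.MetabelianFail
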