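import Pool.Agent.P.MP_8d62fb_al.H82.Ent

/-! The Addition Theorem fails for locally finite `p`-groups, for every prime `p`.
`hAlg` is the algebraic entropy of the problem file and `restr` the restriction to an invariant
subgroup (`Pool/Agent/P/MP_8d62fb_al/H82/Defs.lean`). -/

open Pool.Agent.P.MP_8d62fb_al.H82

theorem Pool.Agent.Results.MP_8d62fb_al.PGroups.result (p : ℕ) (hp : p.Prime) :
    ∃ (G : Type) (_ : Group G), Countable G ∧ IsPGroup p G ∧
      (∀ S : Finset G, Finite (Subgroup.closure (S : Set G))) ∧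
      ∃ (φ : G →* G) (H : Subgroup G) (_ : H.Normal) (h : H ≤ H.comap φ),
        Function.Bijective φ ∧ H.map φ = H ∧ (∀ a b : G ⧸ H, a * b = b * a) ∧
        hAlg (restr φ H h) = 0 ∧
        hAlg (QuotientGroup.map H H φ h) ≤ (Real.log p : ℝ) ∧
        hAlg φ = ⊤ ∧
        hAlg φ ≠ hAlg (QuotientGroup.map H H φ h) + hAlg (restr φ H h) := by
  have : Fact p.Prime := ⟨hp⟩
  refine ⟨GG p, inferInstance, countable_GG p, isPGroup_GG p, locFin p, phi p, HH p, inferInstance,
    HH_le p, ⟨phi_inj p, fun g => (phi_pre p g).imp fun _ h => h.1⟩, map_HH p, fun a b => ?_,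
    ent_H p, ent_Q p, ent_G p, ?_⟩
  · obtain ⟨x, hx⟩ := repQ_ex p a
    obtain ⟨y, hy⟩ := repQ_ex p b
    exact repQ_uniq p (repQ_mul p hx hy) (add_comm y x ▸ repQ_mul p hy hx)
  · rw [ent_G, ent_H, add_zero]
    exact ((ent_Q p).trans_lt (EReal.coe_lt_top _)).ne'
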